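import Mathlib

namespace Pool.Agent.Helper18.UBd

open Finset

/-- Weighted Cauchy-Schwarz. -/
theorem wcs {κ : Type*} [Fintype κ] (m a b : κ → ℝ) (hm : ∀ i, 0 ≤ m i) :
    (∑ i, m i * (a i * b i)) ^ 2 ≤ (∑ i, m i * a i ^ 2) * (∑ i, m i * b i ^ 2) := by
  have h := Finset.sum_mul_sq_le_sq_mul_sq univ (fun i => Real.sqrt (m i) * a i)
    (fun i => Real.sqrt (m i) * b i)
  have e1 : ∀ i, Real.sqrt (m i) * a i * (Real.sqrt (m i) * b i) = m i * (a i * b i) := by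
    intro i
    have := Real.mul_self_sqrt (hm i)
    linear_combination (a i * b i) * this
  have e2 : ∀ i, (Real.sqrt (m i) * a i) ^ 2 = m i * a i ^ 2 := by
    intro i
    have := Real.mul_self_sqrt (hm i)
    linear_combination (a i ^ 2) * this
  have e3 : ∀ i, (Real.sqrt (m i) * b i) ^ 2 = m i * b i ^ 2 := by
    intro i
    have := Real.mul_self_sqrt (hm i)
    linear_combination (b i ^ 2) * this
  simpa only [e1, e2, e3] using h

/-- The product of two linear functionals on a ball. -/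
theorem prod_le {κ : Type*} [Fintype κ] (m ρ η α : κ → ℝ) (hm : ∀ i, 0 ≤ m i) {R E : ℝ}
    (hR : 0 < R) (hE : 0 < E) (hρ : ∑ i, m i * ρ i ^ 2 ≤ R ^ 2) (hη : ∑ i, m i * η i ^ 2 ≤ E ^ 2) :
    (∑ i, m i * (ρ i * α i)) * (∑ i, m i * (η i * α i))
      ≤ (1 / 2) * (R * E + ∑ i, m i * (ρ i * η i)) * ∑ i, m i * α i ^ 2 := by
  set A := ∑ i, m i * (ρ i * α i) with hA
  set B := ∑ i, m i * (η i * α i) with hB
  set N := ∑ i, m i * α i ^ 2 with hN
  set I := ∑ i, m i * (ρ i * η i) with hI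
  have hN0 : 0 ≤ N := Finset.sum_nonneg fun i _ => mul_nonneg (hm i) (sq_nonneg _)
  have h1 := wcs m (fun i => E * ρ i + R * η i) α hm
  have e1 : ∑ i, m i * ((E * ρ i + R * η i) * α i) = E * A + R * B := by
    rw [hA, hB, Finset.mul_sum, Finset.mul_sum, ← Finset.sum_add_distrib]
    exact Finset.sum_congr rfl fun i _ => by ring
  have e2 : ∑ i, m i * (E * ρ i + R * η i) ^ 2
      = E ^ 2 * (∑ i, m i * ρ i ^ 2) + R ^ 2 * (∑ i, m i * η i ^ 2) + 2 * (E * R) * I := by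
    rw [hI, Finset.mul_sum, Finset.mul_sum, Finset.mul_sum, ← Finset.sum_add_distrib,
      ← Finset.sum_add_distrib]
    exact Finset.sum_congr rfl fun i _ => by ring
  rw [e1, e2] at h1
  have h2 : (E ^ 2 * (∑ i, m i * ρ i ^ 2) + R ^ 2 * (∑ i, m i * η i ^ 2) + 2 * (E * R) * I) * N
      ≤ (2 * (E * R) * (R * E + I)) * N := by
    apply mul_le_mul_of_nonneg_right _ hN0
    nlinarith [mul_le_mul_of_nonneg_left hρ (sq_nonneg E), mul_le_mul_of_nonneg_left hη (sq_nonneg R)]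
  have h3 : 4 * (E * R) * (A * B) ≤ (E * A + R * B) ^ 2 := by
    nlinarith [sq_nonneg (E * A - R * B)]
  have hER : 0 < E * R := mul_pos hE hR
  have h4 : (E * R) * (A * B) ≤ (E * R) * ((1 / 2) * (R * E + I) * N) := by nlinarith
  exact le_of_mul_le_mul_left h4 hER

/-- One root: `w` is the lattice width, `W ≤ ⟨ρ,α⟩ + e`. -/
theorem term_le {κ : Type*} [Fintype κ] (m ρ η α : κ → ℝ) (hm : ∀ i, 0 ≤ m i) {E W e : ℝ}
    (hE : 0 < E) (hW : 0 ≤ W) (hρ : ∑ i, m i * ρ i ^ 2 ≤ 2) (hη : ∑ i, m i * η i ^ 2 ≤ E ^ 2)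
    (hρη : ∑ i, m i * (ρ i * η i) ≤ 1) (hWe : W ≤ (∑ i, m i * (ρ i * α i)) + e) (he : 0 ≤ e) :
    W * (∑ i, m i * (η i * α i))
      ≤ (1 / 2) * (1 + Real.sqrt 2 * E) * (∑ i, m i * α i ^ 2)
        + e * |∑ i, m i * (η i * α i)| := by
  set B := ∑ i, m i * (η i * α i) with hB
  have hN0 : 0 ≤ ∑ i, m i * α i ^ 2 := Finset.sum_nonneg fun i _ => mul_nonneg (hm i) (sq_nonneg _)
  have h2 : (0 : ℝ) < Real.sqrt 2 := Real.sqrt_pos.mpr (by norm_num)
  have h22 : Real.sqrt 2 ^ 2 = 2 := Real.sq_sqrt (by norm_num)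
  rcases le_total 0 B with hB0 | hB0
  · have h := prod_le m ρ η α hm h2 hE (by rw [h22]; exact hρ) hη
    rw [abs_of_nonneg hB0]
    have h1 : W * B ≤ ((∑ i, m i * (ρ i * α i)) + e) * B := mul_le_mul_of_nonneg_right hWe hB0
    have h3 : (1 / 2) * (Real.sqrt 2 * E + ∑ i, m i * (ρ i * η i)) * (∑ i, m i * α i ^ 2)
        ≤ (1 / 2) * (1 + Real.sqrt 2 * E) * (∑ i, m i * α i ^ 2) := by
      apply mul_le_mul_of_nonneg_right _ hN0
      linarith
    nlinarith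
  · have h1 : W * B ≤ 0 := mul_nonpos_of_nonneg_of_nonpos hW hB0
    have h3 : 0 ≤ (1 / 2) * (1 + Real.sqrt 2 * E) * (∑ i, m i * α i ^ 2) := by positivity
    have h4 : 0 ≤ e * |B| := mul_nonneg he (abs_nonneg _)
    linarith

/-- The concavity step (tangent at `θ = 2/3`). -/
theorem concave_step {R : Type*} [Fintype R] (w θ : R → ℝ) (hw0 : ∀ r, 0 ≤ w r)
    (hw1 : ∀ r, w r ≤ 1) (hθ : ∀ r, 0 ≤ θ r) (hw : ∑ r, w r ≤ 3) (hθs : ∑ r, θ r ≤ 2) :
    ∑ r, w r * ((1 / 2) * (1 + Real.sqrt ((3 + θ r) / 2))) ≤ (3 / 2) * (1 + Real.sqrt (11 / 6)) := by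
  set c := Real.sqrt (11 / 6) with hc
  have hc0 : 0 < c := Real.sqrt_pos.mpr (by norm_num)
  have hc2 : c ^ 2 = 11 / 6 := Real.sq_sqrt (by norm_num)
  have htan : ∀ r, Real.sqrt ((3 + θ r) / 2) ≤ c + (θ r - 2 / 3) / (4 * c) := by
    intro r
    have h1 : 0 ≤ c + (θ r - 2 / 3) / (4 * c) := by
      have : c + (θ r - 2 / 3) / (4 * c) = (4 * c ^ 2 + θ r - 2 / 3) / (4 * c) := by
        field_simp
        ring
      rw [this, hc2]
      have := hθ r
      apply div_nonneg _ (by positivity)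
      linarith
    rw [Real.sqrt_le_left h1]
    have : (c + (θ r - 2 / 3) / (4 * c)) ^ 2
        = c ^ 2 + (θ r - 2 / 3) / 2 + ((θ r - 2 / 3) / (4 * c)) ^ 2 := by
      field_simp
      ring
    rw [this, hc2]
    nlinarith [sq_nonneg ((θ r - 2 / 3) / (4 * c))]
  have hwθ : ∑ r, w r * θ r ≤ 2 := by
    refine le_trans (Finset.sum_le_sum fun r _ => ?_) hθs
    exact mul_le_of_le_one_left (hθ r) (hw1 r)
  have h1 : ∑ r, w r * ((1 / 2) * (1 + Real.sqrt ((3 + θ r) / 2)))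
      ≤ ∑ r, w r * ((1 / 2) * (1 + (c + (θ r - 2 / 3) / (4 * c)))) := by
    apply Finset.sum_le_sum
    intro r _
    apply mul_le_mul_of_nonneg_left _ (hw0 r)
    have := htan r
    linarith
  have h2 : ∑ r, w r * ((1 / 2) * (1 + (c + (θ r - 2 / 3) / (4 * c))))
      = (1 / 2) * (1 + c - 1 / (6 * c)) * (∑ r, w r) + (1 / (8 * c)) * (∑ r, w r * θ r) := by
    rw [Finset.mul_sum, Finset.mul_sum, ← Finset.sum_add_distrib]
    apply Finset.sum_congr rfl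
    intro r _
    field_simp
    ring
  rw [h2] at h1
  have hpos : 0 ≤ (1 / 2) * (1 + c - 1 / (6 * c)) := by
    have : 1 / (6 * c) ≤ c := by
      rw [div_le_iff₀ (by positivity)]
      nlinarith
    linarith
  have h3 : (1 / 2) * (1 + c - 1 / (6 * c)) * (∑ r, w r) ≤ (1 / 2) * (1 + c - 1 / (6 * c)) * 3 :=
    mul_le_mul_of_nonneg_left hw hpos
  have h4 : (1 / (8 * c)) * (∑ r, w r * θ r) ≤ (1 / (8 * c)) * 2 :=
    mul_le_mul_of_nonneg_left hwθ (by positivity)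
  have h5 : (1 / 2) * (1 + c - 1 / (6 * c)) * 3 + (1 / (8 * c)) * 2 = (3 / 2) * (1 + c) := by
    field_simp
    ring
  linarith

end Pool.Agent.Helper18.UBd
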