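import Mathlib
import Pool.Agent.Helper22.Sym.Core
import Pool.Agent.Helper24.UB.Defs

/-!
# The lattice width bound: leaves (S1) and (S2)

* `expand`: Selling's formula, the form as a combination of the squares of the six roots;
* `root_common`: two obtuse superbases of the same form have all roots of positive weight in common (up to sign): the
  total length `∑ |f' l|²` equals `∑ p_s ∑ (r_s·f'_l)² ≥ 2 ∑ p_s`, and both superbases are minimal.
-/

set_option autoImplicit false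

namespace Pool.Agent.Helper18.UBd

open Matrix Pool.Agent.Helper22.Sym Pool.Agent.Helper24.UB

theorem toR_rt (g : Fin 4 → Fin 3 → ℤ) (s : Fin 6) (u : Fin 3 → ℝ) :
    toR (rt g s) ⬝ᵥ u = toR (g (pa s)) ⬝ᵥ u - toR (g (pb s)) ⬝ᵥ u := by
  have e : toR (rt g s) = toR (g (pa s)) - toR (g (pb s)) := by
    funext k
    simp [toR, rt]
  rw [e, sub_dotProduct]

theorem toR_dot (x y : Fin 3 → ℤ) : toR x ⬝ᵥ toR y = ((x ⬝ᵥ y : ℤ) : ℝ) := by
  simp [toR, dotProduct, Fin.sum_univ_three]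

/-- (S1) Selling's formula. -/
theorem expand (G : Matrix (Fin 3) (Fin 3) ℝ) (hG : G.PosDef) (f g : Fin 4 → Fin 3 → ℤ) (h : Superb f g)
    (u v : Fin 3 → ℝ) :
    u ⬝ᵥ G *ᵥ v = ∑ s : Fin 6, -bil G (f (pa s)) (f (pb s)) * ((toR (rt g s) ⬝ᵥ u) * (toR (rt g s) ⬝ᵥ v)) := by
  have h1 := form_eq G f g h u v
  have h2 := alg_form (fun i j => bil G (f i) (f j)) (fun i j => bil_comm hG _ _)
    (fun i => row_zero G f g h i) (fun i => toR (g i) ⬝ᵥ u) (fun i => toR (g i) ⬝ᵥ v)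
  rw [h1]
  refine h2.trans ?_
  simp only [toR_rt, Fin.sum_univ_six, pa, pb]
  simp only [Matrix.cons_val_zero, Matrix.cons_val_one, Matrix.cons_val]
  ring

/-- the total length of a family of vectors -/
theorem len_eq (G : Matrix (Fin 3) (Fin 3) ℝ) (hG : G.PosDef) (f g : Fin 4 → Fin 3 → ℤ) (h : Superb f g)
    (f' : Fin 4 → Fin 3 → ℤ) :
    ∑ l, bil G (f' l) (f' l) =
      ∑ s : Fin 6, -bil G (f (pa s)) (f (pb s)) * ((∑ l, (rt g s ⬝ᵥ f' l) ^ 2 : ℤ) : ℝ) := by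
  have h1 : ∀ l, bil G (f' l) (f' l) =
      ∑ s : Fin 6, -bil G (f (pa s)) (f (pb s)) * (((rt g s ⬝ᵥ f' l : ℤ) : ℝ) ^ 2) := by
    intro l
    have h2 := expand G hG f g h (toR (f' l)) (toR (f' l))
    refine h2.trans (Finset.sum_congr rfl fun s _ => ?_)
    rw [toR_dot, sq]
  simp only [h1]
  rw [Finset.sum_comm]
  refine Finset.sum_congr rfl fun s _ => ?_
  rw [← Finset.mul_sum]
  push_cast
  rfl

theorem two_le_sq (d : Fin 4 → ℤ) (h0 : ∑ i, d i = 0) (h1 : ∃ i, d i ≠ 0) : 2 ≤ ∑ i, d i ^ 2 := by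
  have hpar : ∑ i, d i ^ 2 = ∑ i, d i + 2 * ∑ i, (d i * (d i - 1)) / 2 := by
    rw [Finset.mul_sum, ← Finset.sum_add_distrib]
    refine Finset.sum_congr rfl fun i _ => ?_
    have h2 : 2 ∣ d i * (d i - 1) := by
      have := Int.even_mul_pred_self (d i)
      exact this.two_dvd
    rw [Int.mul_ediv_cancel' h2]
    ring
  obtain ⟨i, hi⟩ := h1
  have h3 : 0 < ∑ i, d i ^ 2 := Finset.sum_pos' (fun _ _ => sq_nonneg _) ⟨i, Finset.mem_univ _, by positivity⟩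
  rw [h0] at hpar
  omega

/-- the products of a vector with a superbase have sum zero -/
theorem sum_dot {f g : Fin 4 → Fin 3 → ℤ} (h : Superb f g) (r : Fin 3 → ℤ) : ∑ l, r ⬝ᵥ f l = 0 := by
  rw [← dotProduct_sum, h.1, dotProduct_zero]

/-- a nonzero vector has a nonzero product with some vector of a superbase -/
theorem exists_dot_ne {f g : Fin 4 → Fin 3 → ℤ} (h : Superb f g) (r : Fin 3 → ℤ) (hr : r ≠ 0) :
    ∃ l, r ⬝ᵥ f l ≠ 0 := by
  by_contra hcon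
  push Not at hcon
  apply hr
  funext k
  have h1 := repr_vec f g h (Pi.single k 1)
  have h2 : toR r ⬝ᵥ (Pi.single k (1 : ℝ)) = 0 := by
    rw [← h1, dotProduct_sum]
    refine Finset.sum_eq_zero fun l _ => ?_
    rw [dotProduct_smul, toR_dot, hcon l]
    simp
  rw [dotProduct_single, mul_one] at h2
  simpa [toR] using h2

theorem rt_dot {f g : Fin 4 → Fin 3 → ℤ} (h : Superb f g) (s : Fin 6) (l : Fin 4) :
    rt g s ⬝ᵥ f l = (if pa s = l then 1 else 0) - (if pb s = l then 1 else 0) :=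
  h.2 (pa s) (pb s) l

theorem rt_ne {f g : Fin 4 → Fin 3 → ℤ} (h : Superb f g) (s : Fin 6) : rt g s ≠ 0 := by
  intro e
  have h1 := rt_dot h s (pa s)
  rw [e, zero_dotProduct] at h1
  clear e
  revert s
  decide

theorem rt_self {f g : Fin 4 → Fin 3 → ℤ} (h : Superb f g) (s : Fin 6) : ∑ l, (rt g s ⬝ᵥ f l) ^ 2 = 2 := by
  simp only [rt_dot h]
  revert s
  decide

theorem two_le_rt {f g f' g' : Fin 4 → Fin 3 → ℤ} (h : Superb f g) (h' : Superb f' g') (s : Fin 6) :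
    2 ≤ ∑ l, (rt g s ⬝ᵥ f' l) ^ 2 :=
  two_le_sq _ (sum_dot h' _) (exists_dot_ne h' _ (rt_ne h s))

theorem pa_ne_pb (s : Fin 6) : pa s ≠ pb s := by
  revert s
  decide

/-- an obtuse superbase has the smallest total length -/
theorem obtuse_le (G : Matrix (Fin 3) (Fin 3) ℝ) (hG : G.PosDef) (f g f' g' : Fin 4 → Fin 3 → ℤ)
    (h : Superb f g) (h' : Superb f' g')
    (hob : ∀ a b, a ≠ b → bil G (f a) (f b) ≤ 0) :
    ∑ l, bil G (f l) (f l) ≤ ∑ l, bil G (f' l) (f' l) := by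
  rw [len_eq G hG f g h f, len_eq G hG f g h f']
  refine Finset.sum_le_sum fun s _ => ?_
  have h1 := hob _ _ (pa_ne_pb s)
  have h2 : ((∑ l, (rt g s ⬝ᵥ f l) ^ 2 : ℤ) : ℝ) ≤ ((∑ l, (rt g s ⬝ᵥ f' l) ^ 2 : ℤ) : ℝ) := by
    rw [rt_self h s]
    exact_mod_cast two_le_rt h h' s
  nlinarith

theorem dec_root : ∀ d : Fin 4 → Fin 3, (∑ i, ((d i : ℤ) - 1) = 0) → (∑ i, ((d i : ℤ) - 1) ^ 2 = 2) →
    ∃ a b : Fin 4, a ≠ b ∧ ∀ l, ((d l : ℤ) - 1) = (if a = l then 1 else 0) - (if b = l then 1 else 0) := by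
  decide

theorem root_of_sq (d : Fin 4 → ℤ) (h0 : ∑ i, d i = 0) (h2 : ∑ i, d i ^ 2 = 2) :
    ∃ a b : Fin 4, a ≠ b ∧ ∀ l, d l = (if a = l then 1 else 0) - (if b = l then 1 else 0) := by
  have hb : ∀ i, -1 ≤ d i ∧ d i ≤ 1 := by
    intro i
    have h3 : d i ^ 2 ≤ 2 := by
      rw [← h2]
      exact Finset.single_le_sum (f := fun i => d i ^ 2) (fun _ _ => sq_nonneg _) (Finset.mem_univ i)
    constructor <;> nlinarith
  have hc : ∀ i, ∃ c : Fin 3, d i = (c : ℤ) - 1 := by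
    intro i
    obtain ⟨h3, h4⟩ := hb i
    have h5 : (d i + 1).toNat < 3 := by omega
    refine ⟨⟨(d i + 1).toNat, h5⟩, ?_⟩
    have h6 : ((⟨(d i + 1).toNat, h5⟩ : Fin 3) : ℤ) = d i + 1 := by
      simp only
      omega
    rw [h6]
    ring
  choose c hc using hc
  simp only [hc] at h0 h2 ⊢
  exact dec_root c h0 h2

/-- (S2) two obtuse superbases of the same form have the roots of positive weight in common. -/
theorem root_common (G : Matrix (Fin 3) (Fin 3) ℝ) (hG : G.PosDef) (f g f' g' : Fin 4 → Fin 3 → ℤ)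
    (h : Superb f g) (h' : Superb f' g')
    (hob : ∀ a b, a ≠ b → bil G (f a) (f b) ≤ 0) (hob' : ∀ a b, a ≠ b → bil G (f' a) (f' b) ≤ 0)
    (s : Fin 6) (hs : bil G (f (pa s)) (f (pb s)) < 0) :
    ∃ a b : Fin 4, a ≠ b ∧ ∀ l, rt g s ⬝ᵥ f' l = (if a = l then 1 else 0) - (if b = l then 1 else 0) := by
  have h1 := obtuse_le G hG f' g' f g h' h hob'
  rw [len_eq G hG f g h f, len_eq G hG f g h f'] at h1
  refine root_of_sq _ (sum_dot h' _) ?_
  by_contra hne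
  have h3 : ((∑ l, (rt g s ⬝ᵥ f l) ^ 2 : ℤ) : ℝ) < ((∑ l, (rt g s ⬝ᵥ f' l) ^ 2 : ℤ) : ℝ) := by
    have h4 := two_le_rt h h' s
    rw [rt_self h s]
    exact_mod_cast lt_of_le_of_ne h4 (Ne.symm hne)
  refine absurd h1 (not_le.2 (Finset.sum_lt_sum (fun t _ => ?_) ⟨s, Finset.mem_univ s, ?_⟩))
  · have h5 := hob _ _ (pa_ne_pb t)
    have h2 : ((∑ l, (rt g t ⬝ᵥ f l) ^ 2 : ℤ) : ℝ) ≤ ((∑ l, (rt g t ⬝ᵥ f' l) ^ 2 : ℤ) : ℝ) := by
      rw [rt_self h t]
      exact_mod_cast two_le_rt h h' t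
    nlinarith
  · nlinarith

end Pool.Agent.Helper18.UBd
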