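import Mathlib
import Pool.Agent.Helper18.UBd.Hilb

/-!
# The asymmetry bound: leaf (A8)
-/

set_option autoImplicit false

namespace Pool.Agent.Helper18.UBd

/-- (A8) one root, any weights: `T > 0` is a free parameter. -/
theorem term_T {κ : Type*} [Fintype κ] (m ρ η α : κ → ℝ) (hm : ∀ i, 0 ≤ m i) {T W e : ℝ}
    (hT : 0 < T) (hW : 0 ≤ W) (hWe : W ≤ (∑ i, m i * (ρ i * α i)) + e) (he : 0 ≤ e) :
    W * (∑ i, m i * (η i * α i)) ≤
      (1 / 4) * (T * (∑ i, m i * η i ^ 2) + 2 * (∑ i, m i * (ρ i * η i)) + (∑ i, m i * ρ i ^ 2) / T) *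
        (∑ i, m i * α i ^ 2) + e * |∑ i, m i * (η i * α i)| := by
  obtain ⟨N, hN⟩ : ∃ N, N = ∑ i, m i * (η i * α i) := ⟨_, rfl⟩
  obtain ⟨R, hR⟩ : ∃ R, R = ∑ i, m i * (ρ i * α i) := ⟨_, rfl⟩
  obtain ⟨A, hA⟩ : ∃ A, A = ∑ i, m i * α i ^ 2 := ⟨_, rfl⟩
  obtain ⟨E, hE⟩ : ∃ E, E = ∑ i, m i * η i ^ 2 := ⟨_, rfl⟩
  obtain ⟨P, hP⟩ : ∃ P, P = ∑ i, m i * (ρ i * η i) := ⟨_, rfl⟩
  obtain ⟨S, hS⟩ : ∃ S, S = ∑ i, m i * ρ i ^ 2 := ⟨_, rfl⟩
  have hcs : (T * N + R) ^ 2 ≤ (T ^ 2 * E + 2 * T * P + S) * A := by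
    have h1 : T * N + R = ∑ i, m i * ((T * η i + ρ i) * α i) := by
      rw [hN, hR, Finset.mul_sum, ← Finset.sum_add_distrib]
      exact Finset.sum_congr rfl fun i _ => by ring
    have h2 : T ^ 2 * E + 2 * T * P + S = ∑ i, m i * (T * η i + ρ i) ^ 2 := by
      rw [hE, hP, hS, Finset.mul_sum, Finset.mul_sum, ← Finset.sum_add_distrib, ← Finset.sum_add_distrib]
      exact Finset.sum_congr rfl fun i _ => by ring
    rw [h1, h2, hA]
    exact wcs m (fun i => T * η i + ρ i) α hm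
  have hA0 : 0 ≤ A := by
    rw [hA]
    exact Finset.sum_nonneg fun i _ => mul_nonneg (hm i) (sq_nonneg _)
  have hform0 : 0 ≤ (T ^ 2 * E + 2 * T * P + S) := by
    have h2 : T ^ 2 * E + 2 * T * P + S = ∑ i, m i * (T * η i + ρ i) ^ 2 := by
      rw [hE, hP, hS, Finset.mul_sum, Finset.mul_sum, ← Finset.sum_add_distrib, ← Finset.sum_add_distrib]
      exact Finset.sum_congr rfl fun i _ => by ring
    rw [h2]
    exact Finset.sum_nonneg fun i _ => mul_nonneg (hm i) (sq_nonneg _)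
  rw [← hN, ← hA, ← hE, ← hP, ← hS]
  rw [← hR] at hWe
  have hrew : (1 / 4) * (T * E + 2 * P + S / T) * A = (T ^ 2 * E + 2 * T * P + S) * A / (4 * T) := by
    field_simp
  rw [hrew]
  rcases le_or_gt N 0 with hN0 | hN0
  · have h1 : W * N ≤ 0 := mul_nonpos_of_nonneg_of_nonpos hW hN0
    have h2 : 0 ≤ (T ^ 2 * E + 2 * T * P + S) * A / (4 * T) := by positivity
    have h3 : 0 ≤ e * |N| := by positivity
    linarith
  · rw [abs_of_pos hN0]
    have h1 : W * N ≤ (R + e) * N := mul_le_mul_of_nonneg_right hWe hN0.le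
    have h2 : R * N ≤ (T ^ 2 * E + 2 * T * P + S) * A / (4 * T) := by
      rw [le_div_iff₀ (by positivity)]
      nlinarith [sq_nonneg (T * N - R)]
    linarith

end Pool.Agent.Helper18.UBd
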